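import Pool.Agent.P.MP_f7c28d_an.Main

set_option autoImplicit false

namespace Pool.Agent.Results.MP_f7c28d_an.FullProjection

open Pool.Agent.P.MP_f7c28d_an

/-- The temperature projection of the attractor of the semi-dissipative Boussinesq system is the
whole space of mean-free square integrable functions. -/
theorem result (L : ℝ) [Fact (0 < L)] (ν g : ℝ) (hν : 0 < ν) :
    Prod.snd '' attractor L ν g = {θ : L2 L | ∫ x, θ x ∂haar L = 0} := by
  ext θ
  constructor
  · rintro ⟨p, ⟨u, ϑ, hs, -, h0, -⟩, rfl⟩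
    rw [Set.mem_ofPred_eq, ← h0]
    exact hs.2.2.1 0
  · intro h
    obtain ⟨u, hu⟩ := mem_attractor hν g θ h
    exact ⟨(u, θ), hu, rfl⟩

end Pool.Agent.Results.MP_f7c28d_an.FullProjection
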